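import Mathlib
import Pool.Agent.TH945.CB.SigZ
set_option autoImplicit false

/-!
# Slice-ribbon for `J_L # -J_L'`, where `J_L` and `J_L'` are iterated cables of one knot `J`

Let `J` be a knot in the 3-sphere. For a list `L` of cabling parameters `(p, q)` (coprime, `p ≥ 2` the
winding number, `|q| ≥ 2`), last cabling first, let `J_L` be the iterated cable of `J`. By Litherland's
formula the Tristram-Levine signature function of the `(p,q)`-cable of `K` is
`σ_x(K_(p,q)) = σ_(px)(K) + σ_x(T(p,q))`, where `σ_x` is the signature at `exp (2 π i x)`, and
`σ_x(T(p,q))` is given by Brieskorn's count; `T(p,-q)` is the mirror image of `T(p,q)`. So the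
signature function of `J_L` is `sigCZ f L`, where `f` is the signature function of `J`.

Theorem. Let `f` be any function with the properties of a signature function (period `1`, even,
locally constant at all but finitely many points of a period) which is not constant up to finitely
many points. Suppose that all `q` are positive, or that `f` jumps at an irrational point. If
`sigCZ f L` and `sigCZ f L'` agree at all but finitely many points, then `L = L'`.

The signature function of a slice knot (also of a topologically slice one) vanishes at all but
finitely many points. So, for every knot `J` whose signature function is not zero almost everywhere,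
`J_L # -J_L'` is slice only if `L = L'`, and then it is ribbon: the iterated cables of `J` are pairwise
not concordant. (If the signature function of `J` is zero almost everywhere, then the signature
functions of the cables are those of iterated torus knots, the case of `IteratedTorusPairs`.)

Proof. We pass to the jump functions (periodic functions with finitely many non-zero values in a
period); the jump function of `J_L` is `2 Σ_k ± J_(p_k,|q_k|)(P_k x) + j(P x)`, where `j` is the
unknown jump function of the companion and `P` the winding number. If `j` is not zero at an irrational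
point, then the number of the irrational jumps in a period gives `P`, so that `j` cancels. In general
consider the Fourier coefficients `Σ_(0 ≤ x < 1) g(x) exp (-2 π i n x)`. The one at `n = 1` gives the
product `pq` of the parameters of the last cabling. If `(p, q)` and `(p', q')` are the last cablings,
`pq = p'q'` and `q < q'`, then the coefficients at `q`, `p`, `p'` give that `p = q'`, `q = p'` and that
there are no further cablings, in which case `j(px) = j(qx)`, so that `j = 0`; or that `q = p'c`,
`q' = pc`, `c > 1` and `L' = [(p',q')]` is a single cabling. The latter is excluded by the first moment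
`Σ x g(x)` (the integral of the signature function), which is unchanged by `g(x) ↦ g(px)`, because for
torus knots it is `(p² - 1)(q² - 1) / 6pq` (Dedekind reciprocity).
-/

namespace Pool.Agent.Results.MP_752436_gt.IteratedCables

open Pool.Agent.TH670.KN Pool.Agent.TH945.CB Topology

/-- Let `f` be the signature function of a knot `J`, not constant almost everywhere. If the signature
functions of two iterated cables of `J` agree almost everywhere, then their parameters are equal,
provided that the parameters are positive or that `f` has a jump at an irrational point. -/
theorem result (f : ℝ → ℤ) (hper : ∀ x, f (x + 1) = f x) (heven : ∀ x, f (-x) = f x)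
    (hloc : {x : ℝ | x ∈ Set.Ico (0 : ℝ) 1 ∧ ¬ ∀ᶠ y in 𝓝 x, f y = f x}.Finite)
    (hne : ∀ a : ℤ, ¬ {x : ℝ | x ∈ Set.Ico (0 : ℝ) 1 ∧ f x ≠ a}.Finite)
    (L L' : List (ℕ × ℤ))
    (hL : ∀ c ∈ L, Nat.Coprime c.1 c.2.natAbs ∧ 2 ≤ c.1 ∧ 2 ≤ c.2.natAbs)
    (hL' : ∀ c ∈ L', Nat.Coprime c.1 c.2.natAbs ∧ 2 ≤ c.1 ∧ 2 ≤ c.2.natAbs)
    (hsign : ((∀ c ∈ L, 0 < c.2) ∧ (∀ c ∈ L', 0 < c.2)) ∨
      ∃ x, Irrational x ∧ ∀ a : ℤ, ¬ ∀ᶠ y in 𝓝[≠] x, f y = a)
    (hfin : {x : ℝ | x ∈ Set.Ioo (0 : ℝ) 1 ∧ sigCZ f L x ≠ sigCZ f L' x}.Finite) :
    L = L' :=
  mainZ ⟨hper, heven, hloc⟩ hne hL hL' hsign hfin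

end Pool.Agent.Results.MP_752436_gt.IteratedCables
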