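import Mathlib
import Pool.Agent.TH670.KN.Pairs
set_option autoImplicit false

/-!
# Slice-ribbon for `K # -K'`, where `K` and `K'` are iterated torus knots

An iterated torus knot `T(p_1,q_1; ...; p_n,q_n)` is given by the list of its cabling parameters, the
last cabling first; here all `p_i` and `q_i` are at least `2`. The function `sigK` is its
Tristram-Levine signature function by the formulas of Brieskorn and Litherland:
`σ_x(K_(p,q)) = σ_(px)(K) + σ_x(T(p,q))`, where `σ_x` is the signature at `exp (2 π i x)`.

Theorem. If the signature functions of two iterated torus knots agree at all but finitely many points,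
then the knots are equal (`T(p,q) = T(q,p)` is the only ambiguity of the parameters).

The signature function of a (topologically) slice knot vanishes at all but finitely many points. So if
`K # -K'` is slice, then `K = K'`, and `K # -K` is ribbon.

Proof. Let `f` be the jump function of the signature function, a function on `ℚ/ℤ` with finite
support, and consider its Fourier coefficients. For `T(p,q)` they are given by cotangents: the
coefficient at `h` is `i (cot (π h / pq) - [p | h] p cot (π h / q) - [q | h] q cot (π h / p))`, and the
companion contributes only if `p | h`. So the coefficient at `h = 1` gives the product `pq` of the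
parameters of the last cabling, and the coefficients at `h = p, q` give `p` and `q`; then one
continues with the companion.
-/

namespace Pool.Agent.Results.MP_752436_gt.IteratedTorusPairs

open Pool.Agent.TH670.KN

/-- Iterated torus knots (with all parameters at least `2`) whose Tristram-Levine signature functions
agree at all but finitely many points are equal. -/
theorem result (L L' : List (ℕ × ℕ))
    (hL : ∀ c ∈ L, Nat.Coprime c.1 c.2 ∧ 2 ≤ c.1 ∧ 2 ≤ c.2)
    (hL' : ∀ c ∈ L', Nat.Coprime c.1 c.2 ∧ 2 ≤ c.1 ∧ 2 ≤ c.2)
    (hfin : {x : ℝ | x ∈ Set.Ioo (0 : ℝ) 1 ∧ sigK L x ≠ sigK L' x}.Finite) :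
    L = L' ∨ ∃ (M : List (ℕ × ℕ)) (p q : ℕ), L = M ++ [(p, q)] ∧ L' = M ++ [(q, p)] := by
  apply same_of_jump L L' hL hL'
  intro x
  have h := jump_relation (Finset.univ : Finset (Fin 2)) ![1, -1] ![L, L'] ?_ ?_ x
  · simp only [Fin.sum_univ_two, Matrix.cons_val_zero, Matrix.cons_val_one] at h
    have h2 : ((JK L x : ℤ) : ℝ) = ((JK L' x : ℤ) : ℝ) := by linarith
    exact_mod_cast h2
  · intro s _
    fin_cases s
    · exact fun c hc => ⟨(hL c hc).1, by have := (hL c hc).2.1; omega⟩
    · exact fun c hc => ⟨(hL' c hc).1, by have := (hL' c hc).2.1; omega⟩
  · refine hfin.subset ?_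
    rintro y ⟨hy, hne⟩
    refine ⟨hy, fun heq => hne ?_⟩
    simp only [Fin.sum_univ_two, Matrix.cons_val_zero, Matrix.cons_val_one, heq]
    ring

end Pool.Agent.Results.MP_752436_gt.IteratedTorusPairs
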