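import Mathlib
import Pool.Agent.TH397.PZ.Cheb
import Pool.Agent.TH397.PZ.Density
import Pool.Agent.TH726.PZ.Final
import Pool.Agent.TH726.PZ.Density

/-!
# Sliceness of the pretzel knots `P(a, -a-2, -(a+1)²/2)`

For odd `a > 1` these are the only 3-strand pretzel knots for which the slice-ribbon conjecture is open; they are
not known to be ribbon. By the theorem of Fox and Milnor the Alexander polynomial `Δ` of a slice knot is
`± t^k f(t) f(t⁻¹)`. Here we study when this condition holds. Joint work of helper397 and helper726.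
-/

set_option autoImplicit false

open LaurentPolynomial

namespace Pool.Agent.Results.MP_752436_gt.PretzelFoxMilnor

open Pool.Agent.TH397.PZ Pool.Agent.TH726.PZ

/-- `Δ` is the Alexander polynomial of the pretzel knot `P(a, -a-2, -(a+1)²/2)`, `a` odd: with `b = (a+1)/2`,
`(t + 2 + t⁻¹) Δ = t^(2b) + t^(-2b) + t + t⁻¹ - b² (t - t⁻¹)²` -/
def IsPoly (a : ℕ) (Δ : ℤ[T;T⁻¹]) : Prop := IsAlexander a (-(a + 2)) (-(((a : ℤ) + 1) / 2) ^ 2) Δ

/-- the Alexander polynomial of `P(a, -a-2, -(a+1)²/2)` is `± t^k f(t) f(t⁻¹)` -/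
def Slicelike (a : ℕ) : Prop := ∃ Δ, IsPoly a Δ ∧ FoxMilnor Δ

/-- **The Fox-Milnor condition for the pretzel knots `P(a, -a-2, -(a+1)²/2)`.** Let `a > 1` be odd, `b = (a+1)/2`,
and suppose that the Alexander polynomial is of the form `± t^k f(t) f(t⁻¹)`. Then `a` is `1` or `97` modulo `120`,
the prime factors of `a` are `±1` and those of `a + 2` are `1, 3` modulo `8`, those of `b` are `1` modulo `12`, the
order of `p` modulo `q` is odd for all prime factors `p` of `b`, `q` of `a (a + 2)`, some prime factor of `b` has no power that is `2` modulo `a`, `b` is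
not a prime power, and `1 + (2 - c) (b² - S_{b-1}(c)²)` is of the form `u² + c u v + v²` for every integer `c`.
The set of all such `a` has natural density zero. -/
theorem result :
    (∀ a : ℕ, Odd a → 1 < a → Slicelike a →
      (a % 120 = 1 ∨ a % 120 = 97) ∧
      (∀ q : ℕ, q.Prime → q ∣ a → q % 8 = 1 ∨ q % 8 = 7) ∧
      (∀ q : ℕ, q.Prime → q ∣ a + 2 → q % 8 = 1 ∨ q % 8 = 3) ∧
      (∀ p : ℕ, p.Prime → p ∣ (a + 1) / 2 → p % 12 = 1) ∧
      (∀ p q : ℕ, p.Prime → q.Prime → p ∣ (a + 1) / 2 → q ∣ a * (a + 2) → Odd (orderOf (p : ZMod q))) ∧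
      (∃ p : ℕ, p.Prime ∧ p ∣ (a + 1) / 2 ∧ ∀ j : ℕ, ¬ p ^ j ≡ 2 [MOD a]) ∧
      ¬ IsPrimePow ((a + 1) / 2) ∧
      (∀ c : ℤ, ∃ u v : ℤ, 1 + (2 - c) * ((((a : ℤ) + 1) / 2) ^ 2
        - (Polynomial.Chebyshev.S ℤ (((a : ℤ) - 1) / 2)).eval c ^ 2) = u ^ 2 + c * u * v + v ^ 2)) ∧
    Filter.Tendsto
      (fun N : ℕ => (({a : ℕ | 1 ≤ a ∧ a ≤ N ∧ (Odd a ∧ 1 < a ∧ Slicelike a)}.ncard : ℕ) : ℝ) / (N : ℝ))
      Filter.atTop (nhds 0) := by
  have key : ∀ a : ℕ, Odd a → 1 < a → Slicelike a →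
      (a % 120 = 1 ∨ a % 120 = 97) ∧
      (∀ q : ℕ, q.Prime → q ∣ a → q % 8 = 1 ∨ q % 8 = 7) ∧
      (∀ q : ℕ, q.Prime → q ∣ a + 2 → q % 8 = 1 ∨ q % 8 = 3) ∧
      (∀ p : ℕ, p.Prime → p ∣ (a + 1) / 2 → p % 12 = 1) ∧
      (∀ p q : ℕ, p.Prime → q.Prime → p ∣ (a + 1) / 2 → q ∣ a * (a + 2) → Odd (orderOf (p : ZMod q))) ∧
      (∃ p : ℕ, p.Prime ∧ p ∣ (a + 1) / 2 ∧ ∀ j : ℕ, ¬ p ^ j ≡ 2 [MOD a]) ∧
      ¬ IsPrimePow ((a + 1) / 2) ∧
      (∀ c : ℤ, ∃ u v : ℤ, 1 + (2 - c) * ((((a : ℤ) + 1) / 2) ^ 2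
        - (Polynomial.Chebyshev.S ℤ (((a : ℤ) - 1) / 2)).eval c ^ 2) = u ^ 2 + c * u * v + v ^ 2) := by
    rintro a ⟨n, rfl⟩ ha1 ⟨Δ, hΔ, hf⟩
    obtain ⟨b, hb⟩ : ∃ b, b = n + 1 := ⟨_, rfl⟩
    have hb2 : 2 ≤ b := by omega
    have e1 : (((2 * n + 1 : ℕ) : ℤ) + 1) / 2 = b := by omega
    have e2 : (((2 * n + 1 : ℕ) : ℤ) - 1) / 2 = (b : ℤ) - 1 := by omega
    have e3 : (2 * n + 1 + 1) / 2 = b := by omega
    have e4 : 2 * n + 1 = 2 * b - 1 := by omega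
    have e5 : 2 * n + 1 + 2 = 2 * b + 1 := by omega
    have hΔ' : IsAlexander (2 * b - 1) (-(2 * b + 1)) (-(b : ℤ) ^ 2) Δ := by
      unfold IsPoly at hΔ
      rw [e1] at hΔ
      have e6 : (((2 * n + 1 : ℕ) : ℤ)) = 2 * b - 1 := by omega
      rw [e6] at hΔ
      have e7 : (-((2 * b - 1 : ℤ) + 2)) = -(2 * b + 1) := by ring
      rw [e7] at hΔ
      exact hΔ
    obtain ⟨H, h4, h3, h5, -, -⟩ := consequences hb2 hΔ' hf
    have hf' : FoxMilnor (alex b) := by rw [← eq_alex (by omega) hΔ']; exact hf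
    rw [e1, e2, e3, e5, e4]
    refine ⟨by omega, fun q hq hd => prime_a hb2 H hq hd, fun q hq hd => prime_a2 hb2 H hq hd,
      fun p hp hd => prime_mod_twelve hb2 hΔ' hf hp hd, H,
      multiplier hb2 hΔ' hf, not_isPrimePow hb2 hΔ' hf, norm_all hf'⟩
  refine ⟨key, ?_⟩
  have h3 : IsUnit (3 : ZMod 8) := by decide
  refine density_zero (S := {a : ℕ | Odd a ∧ 1 < a ∧ Slicelike a}) (q := 8) h3 ?_
  rintro a ⟨h1, h2, h4⟩ p hp hp3 hd
  have h5 := (key a h1 h2 h4).2.1 p hp hd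
  have h6 : ((p : ℕ) : ZMod 8) = ((3 : ℕ) : ZMod 8) := by simpa using hp3
  rw [ZMod.natCast_eq_natCast_iff'] at h6
  omega

end Pool.Agent.Results.MP_752436_gt.PretzelFoxMilnor
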