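import Mathlib
import Pool.Agent.TH670.KN.Syms
set_option autoImplicit false

/-!
# Slice-ribbon for connected sums of cables of torus knots with prime power parameters

An iterated torus knot is given by the list of its cabling parameters `(p, q)`, the last cabling
first; `sigK` is its Tristram-Levine signature function by the formulas of Brieskorn and Litherland:
`σ_x(K_(p,q)) = σ_(px)(K) + σ_x(T(p,q))`. So the signature function of `T(p_1,q_1; ...; p_n,q_n)` is
the sum of the functions `σ_(Px)(T(p,q))` over its symbols `(p, q, P)`: `{p, q} = {p_i, q_i}` and
`P = p_(i+1) ... p_n`.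

Theorem. If every `(p_i, q_i)` is a pair of coprime prime powers or `q_i = 1`, then all linear
relations between the signature functions are formal: if `∑ a_k σ(K_k)` vanishes at all but finitely
many points, then every symbol `(p, q, P)` with `p, q > 1` cancels in `∑ a_k K_k`.

For instance the `(P,1)`-cable of `T(p,q)` has the only symbol `(p, q, P)`. So these knots, `p < q`
prime powers, `P ≥ 1`, are linearly independent in the concordance group, and a connected sum of such
knots and their mirror images is slice only if it is a sum of knots `K # -K`; so it is ribbon.

Without the assumption on prime powers this is false: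
`σ(T(5,6)) = σ(T(2,3)) + σ(T(2,5)) + σ(T(3,5)) + σ(T(2,3;5,1))`.

Proof. Consider the jumps of the signature functions. Take a symbol `(p, q, P)`, `p = l^a`, `q = r^b`,
with `pq` maximal, and then `P` maximal. The jump function of `T(p,q)` takes only the values `1` and
`-1` at the points of order `pq`, and as a function of the last `l`-adic and the last `r`-adic digit
it is not a sum of functions of one digit. So an alternating sum over four suitable points of order
`pqP` isolates the symbol. There are special arguments for `T(2,q)` and `T(3,4)`.
-/

namespace Pool.Agent.Results.MP_752436_gt.PrimePowerCables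

open Pool.Agent.TH670.KN

/-- All relations between the Tristram-Levine signature functions of iterated torus knots whose
parameters are prime powers (also with `(P,1)`-cables, `P` arbitrary) are formal. -/
theorem result {ι : Type*} (S : Finset ι) (a : ι → ℝ) (K : ι → List (ℕ × ℕ))
    (hK : ∀ k ∈ S, ∀ c ∈ K k,
      (IsPrimePow c.1 ∧ IsPrimePow c.2 ∧ Nat.Coprime c.1 c.2) ∨ (0 < c.1 ∧ c.2 = 1))
    (hfin : {x : ℝ | x ∈ Set.Ioo (0 : ℝ) 1 ∧ ∑ k ∈ S, a k * (sigK (K k) x : ℝ) ≠ 0}.Finite)
    (p q P : ℕ) (hp : 1 < p) : ∑ k ∈ S, a k * ((syms (K k) 1).count (p, q, P) : ℝ) = 0 :=
  formal S a K hK hfin p q P hp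

end Pool.Agent.Results.MP_752436_gt.PrimePowerCables
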